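import Pool.Agent.PFB.Stmts

/-!
# PFB squad (MP_e54c4c_gt), row FMX: zoom with two speeds (adapted from Helper37_PFS/C22)
-/

set_option autoImplicit false

open Matrix Filter Topology

namespace Pool.Agent.PFB.H10

open Pool.Agent.PFS Pool.Agent.PFS.H37

theorem fmx : FmxStmt := by
  intro n C Γ h K hK hmax w l z hw hz hxz
  classical
  by_contra hcontra
  push Not at hcontra
  have H := h.hul
  have zom := H60.zom
  have lim := H37.limF
  have elm := H60.elm
  obtain ⟨c, hcC, hcH⟩ := h.core
  let x0 : V n := ∑ m ∈ Finset.univ.erase l, w m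
  let u : V n := z
  have hwcl : ∀ m, w m ∈ closure C := fun m => H.lamCl _ (hw.2 m)
  have hucl : u ∈ closure C := H.lamCl _ hz
  have hx0cl : x0 ∈ closure C := h.cl_sum fun m _ => hwcl m
  have hccl : c ∈ closure C := subset_closure hcC
  have hune : u ≠ 0 := H.lamNe _ hz
  have huH : u ∈ Hull C Γ := H.lamHull _ hz
  have hne_erase : (Finset.univ.erase l : Finset (Fin K)).Nonempty := by
    rw [← Finset.card_pos, Finset.card_erase_of_mem (Finset.mem_univ l), Finset.card_univ,
      Fintype.card_fin]
    omega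
  have hx0H : x0 ∈ Hull C Γ := hull_sum H hne_erase fun m _ => H.lamHull _ (hw.2 m)
  have hxu : x0 + u ∉ C := hxz
  -- u is not below a multiple of x0
  have hkey : ∀ M : ℝ, M • x0 - u ∉ closure C := by
    intro M hmem
    rcases lt_or_ge 0 M with hM | hM
    · exact hcontra M hM hmem
    · refine hcontra 1 one_pos ?_
      have e0 : (1 : ℝ) • x0 - u = (M • x0 - u) + (1 - M) • x0 := by module
      rw [show (∑ m ∈ Finset.univ.erase l, w m) = x0 from rfl, show z = u from rfl, e0]
      exact h.cl_add hmem (h.cl_smul hx0cl (by linarith))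
  -- choice of the second speed
  have hsp : ∀ (M t : ℝ), 0 < t → ∃ s : ℝ, 0 < s ∧ s ≤ t ∧
      M • (x0 + s • c) - t • u ∉ closure C := by
    intro M t ht
    by_contra hcon
    push Not at hcon
    have hlim : Tendsto (fun m : ℕ => M • (x0 + (t * (1 / ((m : ℝ) + 1))) • c) - t • u) atTop
        (𝓝 (M • (x0 + (t * 0) • c) - t • u)) := by
      have h1 : Tendsto (fun m : ℕ => t * (1 / ((m : ℝ) + 1))) atTop (𝓝 (t * 0)) :=
        tendsto_one_div_add_atTop_nhds_zero_nat.const_mul t
      exact ((tendsto_const_nhds.add (h1.smul_const c)).const_smul M).sub tendsto_const_nhds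
    rw [mul_zero, zero_smul, add_zero] at hlim
    have hmem : M • x0 - t • u ∈ closure C := by
      refine isClosed_closure.mem_of_tendsto hlim (Eventually.of_forall fun m => ?_)
      refine hcon _ (by positivity) ?_
      have h1 : (1 : ℝ) / ((m : ℝ) + 1) ≤ 1 := by
        rw [div_le_one (by positivity)]
        have : (0 : ℝ) ≤ m := Nat.cast_nonneg m
        linarith
      nlinarith
    have h2 := h.cl_smul hmem (t := t⁻¹) (by positivity)
    rw [smul_sub, smul_smul, smul_smul, inv_mul_cancel₀ ht.ne', one_smul] at h2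
    exact hkey _ h2
  let t : ℕ → ℝ := fun m => 1 / ((m : ℝ) + 1)
  have ht0 : ∀ m, 0 < t m := fun m => by simp only [t]; positivity
  have ht1 : ∀ m, t m ≤ 1 := fun m => by
    simp only [t]
    rw [div_le_one (by positivity)]
    have : (0 : ℝ) ≤ m := Nat.cast_nonneg m
    linarith
  have htlim : Tendsto t atTop (𝓝 0) := tendsto_one_div_add_atTop_nhds_zero_nat
  choose r hr0 hrt hrn using fun m : ℕ => hsp ((m : ℝ) + 1) (t m) (ht0 m)
  have hrlim : Tendsto r atTop (𝓝 0) :=
    squeeze_zero (fun m => (hr0 m).le) hrt htlim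
  let p : ℕ → V n := fun m => x0 + t m • u + r m • c
  have hpC : ∀ m, p m ∈ C := fun m =>
    h.cl_add' (h.cl_add hx0cl (h.cl_smul hucl (ht0 m).le)) (h.smul c hcC _ (hr0 m))
  have hpH : ∀ m, p m ∈ Hull C Γ := fun m =>
    H.add _ (H.add _ hx0H _ (H.smul _ huH _ (ht0 m))) _ (H.smul _ hcH _ (hr0 m))
  obtain ⟨φ, g, s, p0, hφm, hg, hs, hp0, hlimp⟩ := zom n C Γ h p hpC hpH
  -- the family, indexed by Option (Fin K)
  let f : ℕ → Option (Fin K) → V n := fun m o =>
    match o with
    | none => t m • u
    | some j => if j = l then r m • c else w j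
  have hfH : ∀ m o, f m o ∈ Hull C Γ := by
    rintro m (_ | j)
    · exact H.smul _ huH _ (ht0 m)
    · simp only [f]
      split_ifs
      · exact H.smul _ hcH _ (hr0 m)
      · exact H.lamHull _ (hw.2 j)
  have hfsum : ∀ m, ∑ o, f m o = p m := by
    intro m
    rw [Fintype.sum_option]
    have h1 : ∑ j, f m (some j) = r m • c + x0 := by
      rw [← Finset.add_sum_erase _ _ (Finset.mem_univ l)]
      congr 1
      · simp [f]
      · refine Finset.sum_congr rfl fun j hj => ?_
        simp [f, Finset.ne_of_mem_erase hj]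
    rw [h1]
    simp only [f, p]
    abel
  let X : ℕ → Option (Fin K) → V n := fun m o => s m • act (g m) (f (φ m) o)
  have hsumX : ∀ m, ∑ o, X m o = s m • act (g m) (p (φ m)) := by
    intro m
    simp only [X]
    rw [← Finset.smul_sum, ← CC.act_sum, hfsum]
  have hXH : ∀ m o, X m o ∈ Hull C Γ := fun m o =>
    H.smul _ (H.act _ (hfH _ o) _ (hg m)) _ (hs m)
  have hcard : 2 ≤ Fintype.card (Option (Fin K)) := by
    rw [Fintype.card_option, Fintype.card_fin]; omega
  have hlimX : Tendsto (fun m => ∑ o, X m o) atTop (𝓝 p0) := by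
    simp only [hsumX]; exact hlimp
  obtain ⟨ψ, W, hψ, hWlim, hWsum, hW⟩ := lim n C Γ h (Option (Fin K)) hcard X p0 hXH hp0 hlimX
  have hcomp : Tendsto (fun m => φ (ψ m)) atTop atTop :=
    hφm.tendsto_atTop.comp hψ.tendsto_atTop
  -- general consequence of a sum with one vertex omitted in C
  have hgen : ∀ o : Option (Fin K), ∑ j ∈ Finset.univ.erase o, W j ∈ C →
      ∃ M : ℝ, 0 < M ∧ ∀ᶠ m in atTop,
        M • (p (φ (ψ m)) - f (φ (ψ m)) o) - f (φ (ψ m)) o ∈ C := by
    intro o hmem
    obtain ⟨M, hM, hMC⟩ := h.absorb hmem (W o)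
    refine ⟨M, hM, ?_⟩
    have hl2 : Tendsto (fun m => M • (∑ j ∈ Finset.univ.erase o, X (ψ m) j) - X (ψ m) o) atTop
        (𝓝 (M • (∑ j ∈ Finset.univ.erase o, W j) - W o)) :=
      ((tendsto_finsetSum _ fun j _ => hWlim j).const_smul M).sub (hWlim o)
    filter_upwards [hl2.eventually (h.isOpen.mem_nhds hMC)] with m hm
    have hm' : M • (∑ j ∈ Finset.univ.erase o, X (ψ m) j) - X (ψ m) o ∈ C := hm
    have e : M • (∑ j ∈ Finset.univ.erase o, X (ψ m) j) - X (ψ m) o
        = s (ψ m) • act (g (ψ m)) (M • (p (φ (ψ m)) - f (φ (ψ m)) o) - f (φ (ψ m)) o) := by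
      rw [Finset.sum_erase_eq_sub (Finset.mem_univ _), hsumX]
      simp only [X]
      rw [CC.act_sub, CC.act_smul, CC.act_sub]
      module
    rw [e, h.sact_mem_iff (hg _) (hs _)] at hm'
    exact hm'
  have hPES : IsPES C Γ W := by
    apply hW
    rintro (_ | a) hmem
    · -- omit u
      obtain ⟨M, hM, hev⟩ := hgen none hmem
      obtain ⟨N, hN⟩ := exists_nat_ge M
      obtain ⟨m, hm1, hm2⟩ := (hev.and (hcomp.eventually (eventually_ge_atTop N))).exists
      apply hrn (φ (ψ m))
      have e1 : p (φ (ψ m)) - f (φ (ψ m)) none = x0 + r (φ (ψ m)) • c := by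
        simp only [p, f]; abel
      rw [e1] at hm1
      have e2 : ((φ (ψ m) : ℝ) + 1) • (x0 + r (φ (ψ m)) • c) - t (φ (ψ m)) • u
          = (M • (x0 + r (φ (ψ m)) • c) - t (φ (ψ m)) • u)
            + (((φ (ψ m) : ℝ) + 1) - M) • (x0 + r (φ (ψ m)) • c) := by
        module
      have hm3 : (N : ℝ) ≤ (φ (ψ m) : ℝ) := by exact_mod_cast hm2
      rw [e2]
      refine h.cl_add (subset_closure hm1) (h.cl_smul (h.cl_add hx0cl
        (h.cl_smul hccl (hr0 _).le)) ?_)
      linarith
    · by_cases hal : a = l
      · -- omit c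
        subst hal
        obtain ⟨M, hM, hev⟩ := hgen (some a) hmem
        obtain ⟨m, hm⟩ := hev.exists
        apply hxu
        have e1 : p (φ (ψ m)) - f (φ (ψ m)) (some a) = x0 + t (φ (ψ m)) • u := by
          simp only [p, f, if_true]; abel
        have h1 : M • (x0 + t (φ (ψ m)) • u) ∈ C := by
          refine h.mem_of_le hm ?_
          rw [e1]
          have e2 : M • (x0 + t (φ (ψ m)) • u) - (M • (x0 + t (φ (ψ m)) • u)
              - f (φ (ψ m)) (some a)) = f (φ (ψ m)) (some a) := by abel
          rw [e2]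
          exact H.hullCl _ (hfH (φ (ψ m)) (some a))
        rw [h.smul_iff hM] at h1
        refine h.mem_of_le h1 ?_
        have e3 : x0 + u - (x0 + t (φ (ψ m)) • u) = (1 - t (φ (ψ m))) • u := by module
        rw [e3]
        exact h.cl_smul hucl (by have := ht1 (φ (ψ m)); linarith)
      · -- omit w a
        obtain ⟨M, hM, hev⟩ := hgen (some a) hmem
        have hfa : ∀ m, f m (some a) = w a := fun m => by simp [f, hal]
        have hlim3 : Tendsto (fun m => M • (p (φ (ψ m)) - w a) - w a) atTop
            (𝓝 (M • (x0 + (0 : ℝ) • u + (0 : ℝ) • c - w a) - w a)) := by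
          have h1 : Tendsto (fun m => p (φ (ψ m))) atTop
              (𝓝 (x0 + (0 : ℝ) • u + (0 : ℝ) • c)) :=
            (tendsto_const_nhds.add ((htlim.comp hcomp).smul_const u)).add
              ((hrlim.comp hcomp).smul_const c)
          exact ((h1.sub tendsto_const_nhds).const_smul M).sub tendsto_const_nhds
        rw [zero_smul, zero_smul, add_zero, add_zero] at hlim3
        have hcl3 : M • (x0 - w a) - w a ∈ closure C := by
          refine isClosed_closure.mem_of_tendsto hlim3 ?_
          filter_upwards [hev] with m hm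
          rw [hfa] at hm
          exact subset_closure hm
        have hale : a ∈ (Finset.univ.erase l : Finset (Fin K)) :=
          Finset.mem_erase.mpr ⟨hal, Finset.mem_univ a⟩
        have hallC : ∑ j, (1 : ℝ) • w j ∈ C := hw.1.pos (fun _ => 1) fun _ => one_pos
        have hx0e : x0 = ∑ j, w j - w l := Finset.sum_erase_eq_sub (Finset.mem_univ l)
        have hbd := hw.1.bd (fun j => if j = a then 0 else M + 1)
          (fun j => by split_ifs <;> linarith) ⟨a, by simp⟩
        apply hbd
        have e5 : ∑ j, (if j = a then (0 : ℝ) else M + 1) • w j =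
            (M + 1) • (∑ j, w j - w a) := by
          rw [← Finset.sum_erase_eq_sub (Finset.mem_univ a), Finset.smul_sum,
            ← Finset.add_sum_erase _ _ (Finset.mem_univ a)]
          rw [if_pos rfl, zero_smul, zero_add]
          refine Finset.sum_congr rfl fun j hj => ?_
          rw [if_neg (Finset.ne_of_mem_erase hj)]
        rw [e5]
        simp only [one_smul] at hallC
        refine h.mem_of_le hallC ?_
        have e6 : (M + 1) • (∑ j, w j - w a) - ∑ j, w j =
            (M • (x0 - w a) - w a) + M • w l := by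
          rw [hx0e]
          module
        rw [e6]
        exact h.cl_add hcl3 (h.cl_smul (hwcl l) hM.le)
  -- contradiction with maximality
  have hcardK : Fintype.card (Option (Fin K)) = K + 1 := by
    rw [Fintype.card_option, Fintype.card_fin]
  have e := Fintype.equivFinOfCardEq hcardK
  have hfin := (elm n C Γ h (Option (Fin K)) W hPES).2.2.1 (Fin (K + 1)) e.symm
  have := hmax (K + 1) _ hfin
  omega

end Pool.Agent.PFB.H10
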