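import Pool.Agent.PFB.StmtsG

/-!
# PFB squad (MP_e54c4c_gt), row FPC: an open face is an open cone in its span
-/

set_option autoImplicit false

open Matrix Filter Topology

namespace Pool.Agent.PFB.H10

open Pool.Agent.PFS

variable {n : ℕ} {C : Set (V n)}

theorem face_of (h : PCone C) {x y : V n} (hx : x ∈ closure C) {B b : ℝ} (hB : 0 < B)
    (hb : 0 < b) (h1 : B • x - y ∈ closure C) (h2 : y - b • x ∈ closure C) : y ∈ Face C x := by
  have hy : y ∈ closure C := h.cl_of_le (h.cl_smul hx hb.le) h2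
  obtain ⟨e, he⟩ : ∃ e : ℝ, e = min B⁻¹ b := ⟨_, rfl⟩
  have he1 : e ≤ B⁻¹ := he ▸ min_le_left _ _
  have he2 : e ≤ b := he ▸ min_le_right _ _
  have he0 : 0 < e := he ▸ lt_min (inv_pos.mpr hB) hb
  refine ⟨e, he0, ?_, ?_⟩
  · have h3 : x - e • y = B⁻¹ • (B • x - y) + (B⁻¹ - e) • y := by
      rw [smul_sub, smul_smul, inv_mul_cancel₀ hB.ne', one_smul, sub_smul]
      abel
    rw [h3]
    exact h.cl_add (h.cl_smul h1 (inv_pos.mpr hB).le) (h.cl_smul hy (by linarith))
  · have h3 : y - e • x = (y - b • x) + (b - e) • x := by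
      rw [sub_smul]
      abel
    rw [h3]
    exact h.cl_add h2 (h.cl_smul hx (by linarith))

theorem of_face (h : PCone C) {x y : V n} (hy : y ∈ Face C x) : ∃ B b : ℝ, 0 < B ∧ 0 < b ∧
    B • x - y ∈ closure C ∧ y - b • x ∈ closure C := by
  obtain ⟨e, he, h1, h2⟩ := hy
  refine ⟨e⁻¹, e, inv_pos.mpr he, he, ?_, h2⟩
  have h3 : e⁻¹ • x - y = e⁻¹ • (x - e • y) := by
    rw [smul_sub, smul_smul, inv_mul_cancel₀ he.ne', one_smul]
  rw [h3]
  exact h.cl_smul h1 (inv_pos.mpr he).le

theorem face_smul (h : PCone C) {x y : V n} (hx : x ∈ closure C) (hy : y ∈ Face C x) {t : ℝ}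
    (ht : 0 < t) : t • y ∈ Face C x := by
  obtain ⟨B, b, hB, hb, h1, h2⟩ := of_face h hy
  apply face_of h hx (mul_pos ht hB) (mul_pos ht hb)
  · have h3 : (t * B) • x - t • y = t • (B • x - y) := by rw [smul_sub, smul_smul]
    rw [h3]
    exact h.cl_smul h1 ht.le
  · have h3 : t • y - (t * b) • x = t • (y - b • x) := by rw [smul_sub, smul_smul]
    rw [h3]
    exact h.cl_smul h2 ht.le

theorem face_add (h : PCone C) {x y z : V n} (hx : x ∈ closure C) (hy : y ∈ Face C x)
    (hz : z ∈ Face C x) : y + z ∈ Face C x := by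
  obtain ⟨B, b, hB, hb, h1, h2⟩ := of_face h hy
  obtain ⟨B', b', hB', hb', h1', h2'⟩ := of_face h hz
  apply face_of h hx (add_pos hB hB') (add_pos hb hb')
  · have h3 : (B + B') • x - (y + z) = (B • x - y) + (B' • x - z) := by
      rw [add_smul]
      abel
    rw [h3]
    exact h.cl_add h1 h1'
  · have h3 : y + z - (b + b') • x = (y - b • x) + (z - b' • x) := by
      rw [add_smul]
      abel
    rw [h3]
    exact h.cl_add h2 h2'

theorem fpc (hF : FceStmt) : FpcStmt := by
  intro n C h x hx hx0 d hd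
  obtain ⟨f1, -, -, f4, f5, -⟩ := hF n C h x hx hx0
  obtain ⟨U, hU⟩ : ∃ U : Submodule ℝ (V n), U = Submodule.span ℝ (Face C x) := ⟨_, rfl⟩
  rw [← hU] at hd f4 f5
  have hfU : ∀ y ∈ Face C x, y ∈ U := fun y hy => hU ▸ Submodule.subset_span hy
  have hrk : Module.finrank ℝ (V d) = Module.finrank ℝ U := by
    rw [hd, Module.finrank_fin_fun]
  obtain ⟨e⟩ : Nonempty (V d ≃ₗ[ℝ] U) := ⟨LinearEquiv.ofFinrankEq _ _ hrk⟩
  obtain ⟨ι, hι⟩ : ∃ ι : V d →ₗ[ℝ] V n, ι = U.subtype ∘ₗ e.toLinearMap := ⟨_, rfl⟩
  have hιe : ∀ z, ι z = (e z : V n) := fun z => by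
    rw [hι]
    rfl
  have hιU : ∀ z, ι z ∈ U := fun z => by
    rw [hιe]
    exact (e z).2
  have hinj : Function.Injective ι := by
    intro a b hab
    rw [hιe, hιe] at hab
    exact e.injective (Subtype.ext hab)
  have hsurj : ∀ y ∈ U, ∃ z, ι z = y := by
    intro y hy
    refine ⟨e.symm ⟨y, hy⟩, ?_⟩
    rw [hιe, LinearEquiv.apply_symm_apply]
  have hcont : Continuous ι := ι.continuous_of_finiteDimensional
  -- order bound
  obtain ⟨M, hM, hMb⟩ : ∃ M : ℝ, 0 < M ∧ ∀ v : V d, (M * ‖v‖) • x - ι v ∈ closure C ∧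
      (M * ‖v‖) • x + ι v ∈ closure C := by
    choose m hm1 hm2 hm3 using fun i : Fin d => f4 (ι (Pi.single i 1)) (hιU _)
    have hsum : 0 ≤ ∑ i, m i := Finset.sum_nonneg fun i _ => (hm1 i).le
    refine ⟨∑ i, m i + 1, by linarith, fun v => ?_⟩
    have hv : ι v = ∑ i, v i • ι (Pi.single i 1) := by
      have h0 : v = ∑ i, v i • (Pi.single i (1 : ℝ) : V d) := by
        funext j
        simp [Finset.sum_apply, Pi.single_apply]
      conv_lhs => rw [h0]
      rw [map_sum]
      simp only [map_smul]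
    have hterm : ∀ i, (m i * ‖v‖) • x - v i • ι (Pi.single i 1) ∈ closure C ∧
        (m i * ‖v‖) • x + v i • ι (Pi.single i 1) ∈ closure C := by
      intro i
      have hvi : |v i| ≤ ‖v‖ := norm_le_pi_norm v i
      have hpos : 0 ≤ m i * (‖v‖ - |v i|) := mul_nonneg (hm1 i).le (by linarith)
      have hx1 := h.cl_smul hx hpos
      rcases le_total 0 (v i) with hs | hs
      · rw [abs_of_nonneg hs] at hx1
        constructor
        · have h3 : (m i * ‖v‖) • x - v i • ι (Pi.single i 1) =
              v i • (m i • x - ι (Pi.single i 1)) + (m i * (‖v‖ - v i)) • x := by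
            rw [smul_sub, smul_smul, mul_sub, sub_smul, mul_comm (v i) (m i)]
            abel
          rw [h3]
          exact h.cl_add (h.cl_smul (hm2 i) hs) hx1
        · have h3 : (m i * ‖v‖) • x + v i • ι (Pi.single i 1) =
              v i • (m i • x + ι (Pi.single i 1)) + (m i * (‖v‖ - v i)) • x := by
            rw [smul_add, smul_smul, mul_sub, sub_smul, mul_comm (v i) (m i)]
            abel
          rw [h3]
          exact h.cl_add (h.cl_smul (hm3 i) hs) hx1
      · rw [abs_of_nonpos hs] at hx1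
        constructor
        · have h3 : (m i * ‖v‖) • x - v i • ι (Pi.single i 1) =
              (-v i) • (m i • x + ι (Pi.single i 1)) + (m i * (‖v‖ - -v i)) • x := by
            rw [smul_add, smul_smul, mul_sub, sub_smul, mul_comm (-v i) (m i), neg_smul]
            abel
          rw [h3]
          exact h.cl_add (h.cl_smul (hm3 i) (by linarith)) hx1
        · have h3 : (m i * ‖v‖) • x + v i • ι (Pi.single i 1) =
              (-v i) • (m i • x - ι (Pi.single i 1)) + (m i * (‖v‖ - -v i)) • x := by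
            rw [smul_sub, smul_smul, mul_sub, sub_smul, mul_comm (-v i) (m i), neg_smul]
            abel
          rw [h3]
          exact h.cl_add (h.cl_smul (hm2 i) (by linarith)) hx1
    have hx2 : (‖v‖) • x ∈ closure C := h.cl_smul hx (norm_nonneg _)
    constructor
    · have h3 : ((∑ i, m i + 1) * ‖v‖) • x - ι v =
          (∑ i, ((m i * ‖v‖) • x - v i • ι (Pi.single i 1))) + ‖v‖ • x := by
        rw [hv, Finset.sum_sub_distrib, ← Finset.sum_smul, ← Finset.sum_mul, add_mul, one_mul,
          add_smul]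
        abel
      rw [h3]
      exact h.cl_add (h.cl_sum fun i _ => (hterm i).1) hx2
    · have h3 : ((∑ i, m i + 1) * ‖v‖) • x + ι v =
          (∑ i, ((m i * ‖v‖) • x + v i • ι (Pi.single i 1))) + ‖v‖ • x := by
        rw [hv, Finset.sum_add_distrib, ← Finset.sum_smul, ← Finset.sum_mul, add_mul, one_mul,
          add_smul]
        abel
      rw [h3]
      exact h.cl_add (h.cl_sum fun i _ => (hterm i).2) hx2
  have hclos : ∀ z ∈ closure (ι ⁻¹' Face C x), ι z ∈ closure (Face C x) := fun z hz =>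
    hcont.closure_preimage_subset _ hz
  refine ⟨ι, hinj, ?_, ?_, ?_⟩
  · rw [← hU]
    ext y
    constructor
    · rintro ⟨z, rfl⟩
      exact hιU z
    · intro hy
      exact hsurj y hy
  · refine ⟨?_, ?_, ?_, ?_, ?_, ?_⟩
    · rw [Metric.isOpen_iff]
      intro z0 hz0
      obtain ⟨B, b, hB, hb, h1, h2⟩ := of_face h (show ι z0 ∈ Face C x from hz0)
      refine ⟨b / (2 * M), by positivity, fun z hz => ?_⟩
      have hzn : ‖z - z0‖ < b / (2 * M) := by
        rw [← dist_eq_norm]
        exact hz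
      have hbd : M * ‖z - z0‖ < b / 2 := by
        calc M * ‖z - z0‖ < M * (b / (2 * M)) := by gcongr
          _ = b / 2 := by field_simp
      obtain ⟨g1, g2⟩ := hMb (z - z0)
      have hz2 : ι z = ι z0 + ι (z - z0) := by
        rw [← map_add]
        congr 1
        abel
      show ι z ∈ Face C x
      apply face_of h hx (B := B + b) (b := b / 2) (by linarith) (by linarith)
      · have h3 : (B + b) • x - ι z = (B • x - ι z0) + ((M * ‖z - z0‖) • x - ι (z - z0)) +
            (b - M * ‖z - z0‖) • x := by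
          rw [hz2, add_smul, sub_smul]
          abel
        rw [h3]
        exact h.cl_add (h.cl_add h1 g1) (h.cl_smul hx (by linarith))
      · have h3 : ι z - (b / 2) • x = (ι z0 - b • x) + ((M * ‖z - z0‖) • x + ι (z - z0)) +
            (b / 2 - M * ‖z - z0‖) • x := by
          have h4 : b • x = (b / 2) • x + (b / 2) • x := by
            rw [← add_smul]
            congr 1
            ring
          rw [hz2, h4, sub_smul]
          abel
        rw [h3]
        exact h.cl_add (h.cl_add h2 g2) (h.cl_smul hx (by linarith))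
    · rw [convex_iff_forall_pos]
      intro a ha c hc s t hs ht _
      show ι (s • a + t • c) ∈ Face C x
      rw [map_add, map_smul, map_smul]
      exact face_add h hx (face_smul h hx ha hs) (face_smul h hx hc ht)
    · obtain ⟨z, hz⟩ := hsurj x (hfU x f1)
      refine ⟨z, ?_⟩
      show ι z ∈ Face C x
      rw [hz]
      exact f1
    · intro h0
      have h0' : ι 0 ∈ Face C x := h0
      rw [map_zero] at h0'
      obtain ⟨B, b, hB, hb, h1, h2⟩ := of_face h h0'
      have h3 : -x ∈ closure C := by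
        have h4 := h.cl_smul h2 (inv_pos.mpr hb).le
        have h5 : b⁻¹ • (0 - b • x) = -x := by
          rw [zero_sub, smul_neg, smul_smul, inv_mul_cancel₀ hb.ne', one_smul]
        rwa [h5] at h4
      exact hx0 (h.salient x hx h3)
    · intro z hz t ht
      show ι (t • z) ∈ Face C x
      rw [map_smul]
      exact face_smul h hx hz ht
    · intro v hv hv'
      have h1 := (f5 _).mp (hclos _ hv)
      have h2 := (f5 _).mp (hclos _ hv')
      have h3 : ι v = 0 := by
        apply h.salient _ h1.1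
        rw [← map_neg]
        exact h2.1
      apply hinj
      rw [h3, map_zero]
  · intro z
    refine ⟨hclos z, fun hz => ?_⟩
    obtain ⟨hz1, hz2⟩ := (f5 _).mp hz
    obtain ⟨M', hM', g1, -⟩ := f4 _ hz2
    obtain ⟨z0, hz0⟩ := hsurj x (hfU x f1)
    have ht : Tendsto (fun m : ℕ => z + (1 / ((m : ℝ) + 1)) • z0) atTop (𝓝 (z + (0 : ℝ) • z0)) :=
      tendsto_const_nhds.add (tendsto_one_div_add_atTop_nhds_zero_nat.smul_const z0)
    rw [zero_smul, add_zero] at ht
    refine mem_closure_of_tendsto ht (Eventually.of_forall fun m => ?_)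
    show ι (z + (1 / ((m : ℝ) + 1)) • z0) ∈ Face C x
    rw [map_add, map_smul, hz0]
    have hpos : 0 < 1 / ((m : ℝ) + 1) := by positivity
    apply face_of h hx (B := M' + 1 / ((m : ℝ) + 1)) (b := 1 / ((m : ℝ) + 1)) (by linarith) hpos
    · have h3 : (M' + 1 / ((m : ℝ) + 1)) • x - (ι z + (1 / ((m : ℝ) + 1)) • x) = M' • x - ι z := by
        rw [add_smul]
        abel
      rw [h3]
      exact g1
    · have h3 : ι z + (1 / ((m : ℝ) + 1)) • x - (1 / ((m : ℝ) + 1)) • x = ι z := by abel
      rw [h3]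
      exact hz1

end Pool.Agent.PFB.H10
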